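import Pool.Agent.X39.SW.Main

set_option autoImplicit false

/-! # The Swan property fails for a Hopf order in `K[C_4]`, `K` a quadratic extension of `ℚ_2` -/

namespace Pool.Agent.Results.MP_f004b1_al.SwanFails

open Pool.Agent.X39.SW

/-- There are a quadratic extension `K` of `ℚ_2` and an `R`-Hopf order `Λ` in `K[C_4]`
(`R` the valuation ring of `K`) for which `φ_Λ : G_0^R(Λ) → G_0(K[C_4])` is not injective. -/
theorem result : ∃ (K : Type) (_ : Field K) (_ : Algebra ℤ_[2] K) (_ : Algebra ℚ_[2] K)
    (_ : IsScalarTower ℤ_[2] ℚ_[2] K) (_ : FiniteDimensional ℚ_[2] K),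
    Module.finrank ℚ_[2] K = 2 ∧
      ∃ H : GroupHopfOrder (valRing 2 K) K (Multiplicative (ZMod 4)), GroupSwanFails H :=
  ⟨KK, inferInstance, inferInstance, inferInstance, inferInstance, inferInstance,
    QuadraticAlgebra.finrank_eq_two _ _, HH, swanFails⟩

end Pool.Agent.Results.MP_f004b1_al.SwanFails
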